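import Mathlib

/-!
# A 2-design whose spectrum of minimal defining sets has a hole

The fourteen planes of the affine geometry `AG(3,2)` form a `2`-`(8,4,3)` design.  Its minimal
defining sets have sizes `6` and `8` only, so its spectrum `{6, 8}` misses the integer `7`.
The same holds when the competing designs are allowed to have repeated blocks.
-/

namespace Pool.Agent.Lib.MP_13ec72_co.SpectrumHole

open Finset

section Definitions

variable {V : Type} [Fintype V] [DecidableEq V]

/-- `B` is (the block set of) a simple `t`-`(v,k,lam)` design on the point set `V`, `v = |V|`: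
every block is a `k`-subset and every `t`-subset of `V` lies in exactly `lam` blocks. -/
def IsDesign (t k lam : ℕ) (B : Finset (Finset V)) : Prop :=
  (∀ b ∈ B, b.card = k) ∧
    ∀ T : Finset V, T.card = t → (B.filter (fun b => T ⊆ b)).card = lam

/-- `S` is a defining set of the design `B`: it consists of blocks of `B`, and `B` is the only
`t`-`(v,k,lam)` design on `V` containing `S`. -/
def IsDefining (t k lam : ℕ) (B S : Finset (Finset V)) : Prop :=
  S ⊆ B ∧ ∀ B' : Finset (Finset V), IsDesign t k lam B' → S ⊆ B' → B' = B

/-- `S` is a minimal defining set of `B`: no proper subset of `S` is a defining set of `B`. -/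
def IsMinimalDefining (t k lam : ℕ) (B S : Finset (Finset V)) : Prop :=
  IsDefining t k lam B S ∧ ∀ S' : Finset (Finset V), S' ⊂ S → ¬ IsDefining t k lam B S'

/-- The spectrum of `B`: the set of sizes of its minimal defining sets. -/
def Spec (t k lam : ℕ) (B : Finset (Finset V)) : Set ℕ :=
  {n | ∃ S : Finset (Finset V), IsMinimalDefining t k lam B S ∧ S.card = n}

/-- `A` has a hole: some integer strictly between two elements of `A` is not in `A`. -/
def HasHole (A : Set ℕ) : Prop := ∃ a ∈ A, ∃ c ∈ A, ∃ m : ℕ, a < m ∧ m < c ∧ m ∉ A

/-- A `t`-`(v,k,lam)` design on `V` in which repeated blocks are allowed, given by the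
multiplicity function `m` of its blocks. -/
def IsMultiDesign (t k lam : ℕ) (m : Finset V → ℕ) : Prop :=
  (∀ b, m b ≠ 0 → b.card = k) ∧
    ∀ T : Finset V, T.card = t → ∑ b : Finset V, (if T ⊆ b then m b else 0) = lam

/-- The `0`-`1` multiplicity function of a set of blocks. -/
def ind (B : Finset (Finset V)) : Finset V → ℕ := fun b => if b ∈ B then 1 else 0

/-- `S` is a defining set of the design `B` when the competing designs may have repeated
blocks. -/
def IsMultiDefining (t k lam : ℕ) (B S : Finset (Finset V)) : Prop :=
  S ⊆ B ∧ ∀ m : Finset V → ℕ, IsMultiDesign t k lam m → (∀ b ∈ S, 1 ≤ m b) → m = ind B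

/-- Minimal defining sets in the setting where competing designs may have repeated blocks. -/
def IsMinimalMultiDefining (t k lam : ℕ) (B S : Finset (Finset V)) : Prop :=
  IsMultiDefining t k lam B S ∧
    ∀ S' : Finset (Finset V), S' ⊂ S → ¬ IsMultiDefining t k lam B S'

/-- The spectrum in the setting where competing designs may have repeated blocks. -/
def MultiSpec (t k lam : ℕ) (B : Finset (Finset V)) : Set ℕ :=
  {n | ∃ S : Finset (Finset V), IsMinimalMultiDefining t k lam B S ∧ S.card = n}

end Definitions

/-- The fourteen planes of `AG(3,2)`: the `4`-subsets of `{0,...,7}` whose four elements,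
written in binary, sum to zero modulo two in each digit. -/
def agPlanes : Finset (Finset (Fin 8)) :=
  {{0, 1, 2, 3}, {0, 1, 4, 5}, {0, 1, 6, 7}, {0, 2, 4, 6}, {0, 2, 5, 7}, {0, 3, 4, 7},
    {0, 3, 5, 6}, {1, 2, 4, 7}, {1, 2, 5, 6}, {1, 3, 4, 6}, {1, 3, 5, 7}, {2, 3, 4, 5},
    {2, 3, 6, 7}, {4, 5, 6, 7}}

/-- The `70` four-element subsets of `Fin 8`, listed. -/
def bl : Fin 70 → Finset (Fin 8) :=
  ![{0, 1, 2, 3}, {0, 1, 2, 4}, {0, 1, 2, 5}, {0, 1, 2, 6}, {0, 1, 2, 7}, {0, 1, 3, 4}, {0, 1, 3, 5}, {0, 1, 3, 6}, {0, 1, 3, 7}, {0, 1, 4, 5}, {0, 1, 4, 6}, {0, 1, 4, 7}, {0, 1, 5, 6}, {0, 1, 5, 7}, {0, 1, 6, 7}, {0, 2, 3, 4}, {0, 2, 3, 5}, {0, 2, 3, 6}, {0, 2, 3, 7}, {0, 2, 4, 5}, {0, 2, 4, 6}, {0, 2, 4, 7}, {0, 2, 5, 6}, {0, 2, 5, 7}, {0, 2, 6, 7}, {0, 3, 4, 5}, {0, 3, 4, 6}, {0, 3, 4, 7}, {0, 3, 5, 6}, {0, 3, 5, 7}, {0, 3, 6, 7}, {0, 4, 5, 6}, {0, 4, 5, 7}, {0, 4, 6, 7}, {0, 5, 6, 7}, {1, 2, 3, 4}, {1, 2, 3, 5}, {1, 2, 3, 6}, {1, 2, 3, 7}, {1, 2, 4, 5}, {1, 2, 4, 6}, {1, 2, 4, 7}, {1, 2, 5, 6}, {1, 2, 5, 7}, {1, 2, 6, 7}, {1, 3, 4, 5}, {1, 3, 4, 6}, {1, 3, 4, 7}, {1, 3, 5, 6}, {1, 3, 5, 7}, {1, 3, 6, 7}, {1, 4,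 5, 6}, {1, 4, 5, 7}, {1, 4, 6, 7}, {1, 5, 6, 7}, {2, 3, 4, 5}, {2, 3, 4, 6}, {2, 3, 4, 7}, {2, 3, 5, 6}, {2, 3, 5, 7}, {2, 3, 6, 7}, {2, 4, 5, 6}, {2, 4, 5, 7}, {2, 4, 6, 7}, {2, 5, 6, 7}, {3, 4, 5, 6}, {3, 4, 5, 7}, {3, 4, 6, 7}, {3, 5, 6, 7}, {4, 5, 6, 7}]

/-- The `28` pairs of points, listed. -/
def pr : Fin 28 → Finset (Fin 8) :=
  ![{0, 1}, {0, 2}, {0, 3}, {0, 4}, {0, 5}, {0, 6}, {0, 7}, {1, 2}, {1, 3}, {1, 4}, {1, 5}, {1, 6}, {1, 7}, {2, 3}, {2, 4}, {2, 5}, {2, 6}, {2, 7}, {3, 4}, {3, 5}, {3, 6}, {3, 7}, {4, 5}, {4, 6}, {4, 7}, {5, 6}, {5, 7}, {6, 7}]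

/-- The fourteen planes, listed. -/
def P : Fin 14 → Finset (Fin 8) :=
  ![{0, 1, 2, 3}, {0, 1, 4, 5}, {0, 1, 6, 7}, {0, 2, 4, 6}, {0, 2, 5, 7}, {0, 3, 4, 7}, {0, 3, 5, 6}, {1, 2, 4, 7}, {1, 2, 5, 6}, {1, 3, 4, 6}, {1, 3, 5, 7}, {2, 3, 4, 5}, {2, 3, 6, 7}, {4, 5, 6, 7}]

/-- For each four-subset, the six indices of the pairs inside it. -/
def prs : List (List ℕ) :=
  [[0, 1, 2, 7, 8, 13], [0, 1, 3, 7, 9, 14], [0, 1, 4, 7, 10, 15], [0, 1, 5, 7, 11, 16], [0, 1, 6, 7, 12, 17], [0, 2, 3, 8, 9, 18], [0, 2, 4, 8, 10, 19], [0, 2, 5, 8, 11, 20], [0, 2, 6, 8, 12, 21], [0, 3, 4, 9, 10, 22], [0, 3, 5, 9, 11, 23], [0, 3, 6, 9, 12, 24], [0, 4, 5, 10, 11, 25], [0, 4, 6, 10, 12, 26], [0, 5, 6, 11, 12, 27], [1, 2, 3, 13, 14, 18], [1, 2, 4, 13, 15, 19], [1, 2, 5, 13, 16, 20], [1, 2, 6, 13, 17, 21], [1, 3, 4, 14, 15, 22], [1, 3, 5, 14, 16, 23], [1, 3, 6, 14, 17, 24], [1, 4, 5, 15, 16, 25], [1, 4, 6, 15, 17, 26], [1, 5, 6, 16, 17, 27], [2, 3, 4, 18, 19, 22], [2, 3, 5, 18, 20, 23], [2, 3, 6, 18, 21, 24], [2, 4, 5, 19, 20, 25], [2, 4, 6, 19, 21, 26], [2, 5, 6, 20, 21, 27], [3, 4, 5, 22, 23, 25], [3, 4, 6, 22, 24, 26], [3, 5, 6, 23,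 24, 27], [4, 5, 6, 25, 26, 27], [7, 8, 9, 13, 14, 18], [7, 8, 10, 13, 15, 19], [7, 8, 11, 13, 16, 20], [7, 8, 12, 13, 17, 21], [7, 9, 10, 14, 15, 22], [7, 9, 11, 14, 16, 23], [7, 9, 12, 14, 17, 24], [7, 10, 11, 15, 16, 25], [7, 10, 12, 15, 17, 26], [7, 11, 12, 16, 17, 27], [8, 9, 10, 18, 19, 22], [8, 9, 11, 18, 20, 23], [8, 9, 12, 18, 21, 24], [8, 10, 11, 19, 20, 25], [8, 10, 12, 19, 21, 26], [8, 11, 12, 20, 21, 27], [9, 10, 11, 22, 23, 25], [9, 10, 12, 22, 24, 26], [9, 11, 12, 23, 24, 27], [10, 11, 12, 25, 26, 27], [13, 14, 15, 18, 19, 22], [13, 14, 16, 18, 20, 23], [13, 14, 17, 18, 21, 24], [13, 15, 16, 19, 20, 25], [13, 15, 17, 19, 21, 26], [13, 16, 17, 20, 21, 27], [14, 15, 16, 22, 23, 25], [14, 15, 17, 22, 24, 26], [14, 16, 17, 23, 24, 27], [15, 16, 17, 25, 26, 27], [18, 19, 20, 22, 23, 25], [18, 19, 21, 22, 24, 26], [18, 20, 21, 23, 24, 27], [19, 20, 21, 25, 26, 27], [22, 23, 24, 25, 26, 27]]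

/-- For each four-subset, its index among the planes (or `99`). -/
def dpos : List ℕ :=
  [0, 99, 99, 99, 99, 99, 99, 99, 99, 1, 99, 99, 99, 99, 2, 99, 99, 99, 99, 99, 3, 99, 99, 4, 99, 99, 99, 5, 6, 99, 99, 99, 99, 99, 99, 99, 99, 99, 99, 99, 99, 7, 8, 99, 99, 99, 9, 99, 99, 10, 99, 99, 99, 99, 99, 11, 99, 99, 99, 99, 12, 99, 99, 99, 99, 99, 99, 99, 99, 13]

/-- The trades: a mask of four planes, and a design containing the ten others. -/
def trades : List (ℕ × List ℕ) :=
  [(13440, [0, 9, 14, 20, 23, 27, 28, 38, 42, 46, 52, 55, 63, 68]),
   (13056, [0, 9, 14, 20, 23, 27, 28, 37, 41, 49, 51, 55, 64, 67]),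
   (12360, [0, 9, 14, 17, 23, 27, 31, 41, 42, 46, 49, 55, 63, 68]),
   (12336, [0, 9, 14, 18, 20, 28, 32, 41, 42, 46, 49, 55, 64, 67]),
   (11520, [0, 9, 14, 20, 23, 27, 28, 36, 41, 46, 54, 60, 61, 66]),
   (10880, [0, 9, 14, 20, 23, 27, 28, 35, 42, 49, 53, 60, 62, 65]),
   (10320, [0, 9, 14, 16, 20, 27, 34, 41, 42, 46, 49, 60, 62, 65]),
   (10280, [0, 9, 14, 15, 23, 28, 33, 41, 42, 46, 49, 60, 61, 66]),
   (9282, [0, 6, 14, 20, 23, 27, 31, 41, 42, 46, 52, 55, 60, 68]),
   (9252, [0, 8, 9, 20, 23, 28, 33, 41, 42, 46, 54, 55, 60, 66]),
   (8772, [0, 7, 9, 20, 23, 27, 34, 41, 42, 49, 53, 55, 60, 65]),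
   (8738, [0, 5, 14, 20, 23, 28, 32, 41, 42, 49, 51, 55, 60, 67]),
   (8466, [0, 2, 14, 20, 27, 28, 32, 41, 46, 49, 51, 55, 60, 64]),
   (8460, [0, 3, 9, 23, 27, 28, 33, 41, 46, 49, 54, 55, 60, 61]),
   (8340, [0, 4, 9, 20, 27, 28, 34, 42, 46, 49, 53, 55, 60, 62]),
   (8330, [0, 1, 14, 23, 27, 28, 31, 42, 46, 49, 52, 55, 60, 63]),
   (7680, [0, 9, 14, 20, 23, 27, 28, 41, 42, 45, 50, 56, 59, 69]),
   (6528, [0, 9, 14, 20, 23, 27, 28, 39, 44, 46, 49, 57, 58, 69]),
   (6240, [0, 9, 14, 20, 23, 25, 30, 41, 42, 46, 49, 57, 58, 69]),
   (6168, [0, 9, 14, 19, 24, 27, 28, 41, 42, 46, 49, 56, 59, 69]),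
   (5185, [6, 9, 14, 17, 20, 23, 27, 38, 41, 42, 46, 55, 68, 69]),
   (5140, [0, 9, 13, 20, 24, 27, 28, 41, 42, 46, 50, 55, 59, 69]),
   (4641, [5, 9, 14, 18, 20, 23, 28, 37, 41, 42, 49, 55, 67, 69]),
   (4620, [0, 9, 10, 23, 24, 27, 28, 41, 42, 49, 50, 55, 56, 69]),
   (4420, [0, 9, 12, 20, 23, 27, 30, 41, 44, 46, 49, 55, 58, 69]),
   (4369, [2, 9, 14, 18, 20, 27, 28, 37, 41, 46, 49, 55, 64, 69]),
   (4260, [0, 9, 11, 20, 23, 28, 30, 42, 44, 46, 49, 55, 57, 69]),
   (4233, [1, 9, 14, 17, 23, 27, 28, 38, 42, 46, 49, 55, 63, 69]),
   (3105, [8, 9, 14, 15, 20, 23, 28, 36, 41, 42, 46, 60, 66, 69]),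
   (3090, [0, 13, 14, 19, 20, 27, 28, 41, 42, 45, 46, 59, 60, 69]),
   (2625, [7, 9, 14, 16, 20, 23, 27, 35, 41, 42, 49, 60, 65, 69]),
   (2570, [0, 10, 14, 19, 23, 27, 28, 41, 42, 45, 49, 56, 60, 69]),
   (2370, [0, 12, 14, 20, 23, 25, 27, 39, 41, 46, 49, 58, 60, 69]),
   (2313, [3, 9, 14, 15, 23, 27, 28, 36, 41, 46, 49, 60, 61, 69]),
   (2210, [0, 11, 14, 20, 23, 25, 28, 39, 42, 46, 49, 57, 60, 69]),
   (2193, [4, 9, 14, 16, 20, 27, 28, 35, 42, 46, 49, 60, 62, 69]),
   (1920, [0, 9, 14, 20, 23, 27, 28, 40, 43, 47, 48, 55, 60, 69]),
   (1632, [0, 9, 14, 20, 23, 26, 29, 41, 42, 47, 48, 55, 60, 69]),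
   (1542, [0, 10, 13, 20, 23, 27, 28, 41, 42, 45, 50, 55, 60, 69]),
   (1360, [0, 9, 14, 20, 22, 27, 29, 41, 43, 46, 48, 55, 60, 69]),
   (1285, [3, 8, 9, 20, 23, 27, 28, 36, 41, 46, 54, 55, 60, 69]),
   (1200, [0, 9, 14, 20, 21, 28, 29, 42, 43, 46, 47, 55, 60, 69]),
   (1155, [1, 6, 14, 20, 23, 27, 28, 38, 42, 46, 52, 55, 60, 69]),
   (840, [0, 9, 14, 22, 23, 26, 27, 40, 41, 48, 49, 55, 60, 69]),
   (771, [2, 5, 14, 20, 23, 27, 28, 37, 41, 49, 51, 55, 60, 69]),
   (680, [0, 9, 14, 21, 23, 26, 28, 40, 42, 47, 49, 55, 60, 69]),
   (645, [4, 7, 9, 20, 23, 27, 28, 35, 42, 49, 53, 55, 60, 69]),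
   (408, [0, 9, 14, 21, 22, 27, 28, 40, 43, 46, 49, 55, 60, 69]),
   (390, [0, 11, 12, 20, 23, 27, 28, 39, 44, 46, 49, 55, 60, 69]),
   (120, [0, 9, 14, 21, 22, 26, 29, 41, 42, 46, 49, 55, 60, 69]),
   (102, [0, 11, 12, 20, 23, 25, 30, 41, 42, 46, 49, 55, 60, 69]),
   (85, [4, 7, 9, 16, 20, 27, 34, 41, 42, 46, 49, 55, 60, 69]),
   (75, [1, 6, 14, 17, 23, 27, 31, 41, 42, 46, 49, 55, 60, 69]),
   (51, [2, 5, 14, 18, 20, 28, 32, 41, 42, 46, 49, 55, 60, 69]),
   (45, [3, 8, 9, 15, 23, 28, 33, 41, 42, 46, 49, 55, 60, 69]),
   (30, [0, 10, 13, 19, 24, 27, 28, 41, 42, 46, 49, 55, 60, 69])]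

/-- The minimal defining sets (as masks of planes) with weight certificates on the pairs:
the weight of pair number `k` is the `k`-th digit in base `256`, minus `100`. -/
def certs : List (ℕ × ℕ) :=
  [(955, 10152930889304134962243622744524039423979672889961027839455744456292),
   (989, 9521055538632421022862498656758426438977944770686025517867825854052),
   (1006, 9517779042102859332996542854305113839715669992937261905652541839972),
   (1008, 10467217426311449810391617042905037650579461990118487363954235761763),
   (1469, 9520645763178559136536088183142687065887266079309194734299567847012),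
   (1499, 10152517912528382065874330486229947236599474172990519572035935893092),
   (1512, 10467217426311450183080221165537579500960871258432278380640819569763),
   (1526, 9519424546562100451734676640373539930287872651652246735545850419812),
   (1726, 9524335274292453959843917948264947628259662588336625567004754604132),
   (1752, 10467627189260154046184740391160830049550927587354513811867240260963),
   (1771, 10152930889304134586728778281304151470589842534727503223708265637732),
   (1781, 9520645763178554670181354248291594395959603921325200084482490001252),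
   (1848, 10467627189260154418861971133744769353370169046430919293014968132963),
   (1886, 9524341676936224426935527976895457661074567449832221101888525463652),
   (1901, 9521055538632426991629452834938069927859412063420031945815132366692),
   (1907, 10152517912528381690200258702329623630076595648362514064354808588132),
   (2479, 10992138213220436112223163374846912140559088082446633310668542403702),
   (2519, 10989668355870628370061615966556214404959610830521886427524872234102),
   (2532, 10572118341816252546440653490940622791745701309729069950028831089508),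
   (2554, 10147184535033979168751110089298918952112995501994462616569194243162),
   (2719, 10995416285547157983395184903182654999609766286490943043438946973302),
   (2772, 10572528104764956409545172716563873340335757638651305381255251780708),
   (2791, 10992138213220430884477613590024317125070861560866573567606383860342),
   (2809, 10152930889304129735953865168657195217193407437441390838157980104282),
   (3359, 10994995305466695450425764261081785185406954239773667321700094211702),
   (3372, 10572528104764957154911007581780354494536408366041501879089563460708),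
   (3431, 10989668355870630968645958886458068960753362339264952299346978036342),
   (3449, 10152517912528385038603069737754519379254051208455695747700955182682),
   (3612, 10572937867713661018015526807403605043126464694963737310315984151908),
   (3631, 10995416285547160581990901203133112103228378376394141366055770285942),
   (3671, 10994995305466690222668841096210587622093855000736802169575610541942),
   (3706, 10156199319905471980554765236522561285456544274901167889496026673242),
   (3994, 10156199319905472356074716570391723717221873296664549753555842527322),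
   (4009, 10152930889304137934978048686038487913321020585155996080210845329242),
   (4049, 10152517912528376839578886220373226682967367620841228145482984286042),
   (4066, 10147184535033978793231158755429756520188627594702568083840052519002),
   (4535, 10884357664863115474157960804248114214436154187586449294729991906422),
   (4559, 10886824320891032206276625994007061490438789769846219905163845919862),
   (4578, 10572118341816252922040843080917884278254333863728577277370653041508),
   (4604, 10568433701707824416057377537061491662180749434737320193644777464922),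
   (4895, 10890094389913044440848519138529406544173770140354660106314765203062),
   (4914, 10572528104764957157822593049125074130663631651727218189744801604708),
   (4967, 10886824320891035208121218607185102631061153484991905234388363139702),
   (4985, 9521055538632423650562694335018332833954376954881905293848481265242),
   (5279, 10889692617763892191122237482587082800596877599753596233491060258422),
   (5322, 10572528104764957157833966429173676677225799460964603725283657540708),
   (5351, 10884357664863117730756139042720000940549796680123663262687704799862),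
   (5369, 9520645763178561391678475865401073580111914047729044413154919347802),
   (5658, 10572937867713661393615716397380866529635097248963244637657806103908),
   (5687, 10889692617763894447600995230548642786620883082726001964697080063862),
   (5711, 10890094389913047442812532242217774424090394390009487688090645718902),
   (5756, 10577448486579323237464063325481833672501668913274803870728502669402),
   (6044, 10577448486579317603380984018154296428562210171421796172123781230682),
   (6065, 9520645763178561391553368684866445568718491647831111947119600559962),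
   (6089, 9521055538632423650687801515552960845665947518135371215278327687002),
   (6116, 10568433701707830050140456844389028908506335175090592906564883996762),
   (6334, 11832155415398114184950161252182491874373668668335800532305104757872),
   (6342, 10677429020269759521194398754576719968010629512261395294671669060453),
   (6379, 10992138213220435761456795732158053351801376457288853661255596401767),
   (6389, 10884357664863110983054750830485331939734665738653032804317809501287),
   (6438, 10677429020269759893871629497160659271829870971337800775819396932453),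
   (6494, 11832161818041884652041769892482129442205144268803239942842425697392),
   (6509, 10886824320891031814588833094036384883798215123749087785006382081127),
   (6515, 10989668355870634354842290654094677988833637422823186469341493617767),
   (6678, 10677838783218463756976148722783909820419927300260036207045817623653),
   (6715, 10995416285547160614018340820909753142830040284429548013204497790567),
   (6749, 10890094389913039211635801319792495199789788927699691358359306663527),
   (6766, 11834613968080012393199122256632258419075763015314059522485147425392),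
   (7054, 11834613968080012745426391250963405814777254194453241236231678876272),
   (7075, 10992138213220439115529237159042268684600542764476986322966683277927),
   (7109, 10886824320891026977069594865301071597362885259104173416353672682087),
   (7144, 9517779042102858980769273695955362982165664052141538166700896180832),
   (7182, 10677838783218464129664752845416451670801336568573827223732401431653),
   (7229, 10889692617763894415573555960537943661570191969745619654429515216487),
   (7259, 10994995305466698453845571845777731586576645285216064289558193534567),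
   (7286, 11836259472539259474954923393194595721836830779689831874978052856432),
   (7574, 11836259472539253864164526425405073513961209880461024326686615820912),
   (7589, 10884357664863117698603592592168053625612598663456246409084380076647),
   (7619, 10989668355870631000798505684783902404751380718889849437986522356327),
   (7664, 9519424546562106062525076220890941893538484843810108779755429976672),
   (7819, 10995416285547163968238413180973868197279964715366911329920532244327),
   (7829, 10889692617763887699922353778417799059008966172139882584663960217447),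
   (7846, 11832155415398119795649571179583193713390888830293566757888054681712),
   (7864, 9524335274292459570543330488351160077910006220472927979467638992992),
   (7949, 10890094389913044049257399968965231405135448805672855112933107722087),
   (7955, 10994995305466695099596843028140176782296318168761860554490717562727),
   (8006, 11832161818041884299905487938539802417589141939906851897450440581232),
   (8024, 9524341676936224074799245858976896317124830069058056994683574972512),
   (8887, 10893408034477122984503142961457198979953171218865248545472187428982),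
   (8911, 10890129843351346047394473510651502450717954039918013771211196098422),
   (8913, 10572941094143952634080790694873771204247121430058792699400240325988),
   (8956, 10573767167425308882858122258271087044822050997927953928273214793562),
   (9007, 10890129843351349021504922770095880816096528905650262552125490882422),
   (9009, 10572941094143953006758021437457710508066362889135198180547968197988),
   (9047, 10893430443730320558324251599350968422688592423583995945157143261302),
   (9082, 9520668260654837904434532435294535697736939220283589406996228958042),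
   (9391, 10893408034477127836733959786785872734079123202144090822337039396982),
   (9417, 10572941094143953006769394817506313054628530698372583716086824133988),
   (9431, 10895889108958689023977468224204009440234994989039543620107764787062),
   (9466, 9526814892462855270673068146210959011221901994973533699397168621402),
   (9513, 10572941094143953379446625560090252358447772157448989197234552005988),
   (9527, 10895889108958693876088864559022356454271316030901914139354727475062),
   (9551, 10893430443730323532554121349305673527361433891973723457756605149302),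
   (9596, 10579961819061610528780808565948560943630836431731799615283776677722),
   (10156, 10573767167425317081882305775652379742222266505731624745046607685722),
   (10162, 9526814892462855270547960965676330999828499013150277966590022019162),
   (10186, 9520668260654837904559639615829163709448529201611732061654247565402),
   (10196, 10579961819061602329756625048567268248616755204206397587786333448282),
   (10429, 11837516274020347610400264160968335123051691199135130659495860467312),
   (10437, 10677842009648755370129827142909356345413360749669375285474835653733),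
   (10459, 10995030758514210718799393800291429132383285938270186406338626614887),
   (10486, 10888469913329113391662515256941973819930545587721312302410123139687),
   (10533, 10677842009648755742807057885493295649232602208745780766622563525733),
   (10555, 10995030758514213700188805856988039551224488485751198945367557174887),
   (10589, 11837538683273545176942408613292240404327224468655162331320612779632),
   (10606, 10884380162095152734659256176918141311165054514533602182970927962727),
   (10773, 10678251772597459605911577111116546197822658537668016197848984216933),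
   (10846, 10889699045860683174057994856872910141110151557828087219278285793127),
   (10861, 11837925949432906557768760951053917467134880530642076757431063832432),
   (10867, 10998718625052546594541804684487973755738240635172773261557787684967),
   (11149, 11837925949432908788025633478332473261165450131528358267696599033712),
   (11155, 10998718625052548840812396754065552889356189404512695318622853689447),
   (11206, 10884380162095149760554605111224030910231358844404324474579656925287),
   (11224, 9520668260654834924506710786782969603172795253322795235585315858272),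
   (11277, 10678251772597459978600181233749088048204067805981807214535568024933),
   (11326, 10895853680973416139703916515110838284716365505275860761409729750887),
   (11371, 10998718625052551439522092162699162179003966692330092652262485028967),
   (11381, 11843685215040255504676819262474074087919647015222194604395464124272),
   (11659, 10998718625052551822349662751380756056121722295122019152089668153447),
   (11669, 11843685215040251771916025827631960278373104537740486852623030839152),
   (11686, 10888469913329118243796769855583492620306883154158242713371599724647),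
   (11704, 9526814892462858626229736192136876104609891816720795776526089480032),
   (11926, 10895853680973411287467301496031896567656773902185760351905613113447),
   (11941, 11837516274020351343070070555421628563739820803049124130292199024752),
   (11971, 10995030758514208472557235180848596721208687902732319594291108276327),
   (12016, 9526814892462854159966702921520790632357929320771418804641103046752),
   (12046, 10889699045860686148265006343004443460954216077434967780046992861287),
   (12067, 10995030758514213317332801818171698950549915766747852920716237236327),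
   (12101, 11837538683273542946776523126402504981382131581715001531142016297072),
   (12136, 9520668260654840893365365629197620289729962208091419341464713783392),
   (12475, 11837516274020352485923766033433742751585137896337662824392153331312),
   (12483, 10677842009648755745730016732886617831921993303668882612816657605733),
   (12509, 12469402841872668152649816062829723856519834565155507404789840377447),
   (12526, 12464040527207935624518379782194423642584706613741670384596525996647),
   (12579, 10677842009648756118407247475470557135741234762745288093964385477733),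
   (12605, 12469402841872672997482248732689043526478884637126516588205636089447),
   (12635, 11837538683273548189022889004861662776360477999309698938979022763632),
   (12662, 12468178298270180561205789892832704381981341990114580687503608994407),
   (12819, 10678251772597459981511766701093807684331291091667523525190806168933),
   (12862, 12469367414278181656045541612225085427681511651834322989820193433447),
   (12907, 11837925949432911447878621868132055211223646331812969001309345048432),
   (12917, 12473090708411010038023691038344474522468392715737909381519493197927),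
   (13195, 11837925949432911800134547320036642355801105417810135747309490169712),
   (13205, 12473090708411006274691252466725353980381553721461441875920021909607),
   (13222, 12464040527207938978619254659200145342272708029067905338381739516007),
   (13240, 10573767167425313733536585872290308610968251292329715012642370250592),
   (13323, 10678251772597460354200370823726349534712700359981314541877389976933),
   (13406, 12475554062609765839117820925551707242560025567361343326287877007207),
   (13421, 12473090708411016746390132229475359465619500801287151981903857741927),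
   (13427, 11843685215040262258172834760178703642508438132927607635669943740272),
   (13709, 12473090708411011119614672176960253667032468640462688919066503573607),
   (13715, 11843685215040256647411094249962621183508785140556785119632120375152),
   (13766, 12468178298270177207133571473400422433555454898221272513515566424167),
   (13784, 10579961819061607180531762393007555673936462798170307154436843661152),
   (13966, 12469367414278185010237180522167694117787805694811715163903156578407),
   (13987, 11837516274020358096594519503261004840931013676381778033521159792752),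
   (14021, 12469402841872671916010688084583591123595190177262807838391570294887),
   (14056, 10573767167425319367716472714502127532231491304761586478983875618912),
   (14102, 12475554062609762484897525558035658805168533559045241883294527678567),
   (14117, 12469402841872678624229275335069402604054265565768337809203564406887),
   (14147, 11837538683273547836857950593345896002073131288499659877133094185072),
   (14192, 10579961819061612814552421914538938942066654641207697728844700543072),
   (14764, 12464040527207935592365833337087076950613706911302424015589679323752),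
   (14770, 10888469913329121622714140219777767611038178132852693802928528972392),
   (14794, 10884380162095152766811802980688575378129271208386669806206950333032),
   (14804, 12468178298270172330154167544766515579861025105747817614627024951912),
   (15004, 12469367414278176779060450993539072552614678801808695357247984789352),
   (15025, 10893408034477126724451914762432119338397021157032404212057022885992),
   (15049, 10890129843351343824444997063311965867577687153202180003735100483432),
   (15076, 12464040527207934510900427694654985924276935980946800427583238791272),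
   (15130, 10889699045860686180292445966246869694699927293748994825925437712232),
   (15145, 10890129843351348661941600035676040752841644047326351994329062467432),
   (15185, 10893430443730318335437328742321114987532361348840685092074143838312),
   (15202, 10884380162095155768719662807980117350811101837517936096009959989352),
   (15514, 10895853680973419518644033639395698191267042755971798994964363372392),
   (15529, 10893408034477133440125752200923502343640820664801243133308740005992),
   (15569, 10895889108958692764045660515731625677895346235277295635792894388072),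
   (15586, 10888469913329123879432452572606167900443753035473562166171932254312),
   (15644, 12475554062609762452870086293490744874261891754343479971756680177512),
   (15665, 10895889108958699479543210563469669211817049305531589364719524276072),
   (15689, 10893430443730323173110219105438529343323050341720409249060470878312),
   (15716, 12468178298270182801847828933141279895809461758597239495571381117032),
   (15916, 12469367414278187250765485761962439416387976035818249688987058464872),
   (15922, 10895853680973421775186058601470759009350515152929785686748875614312),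
   (15946, 10889699045860689182376593184291751137908483953487476802987008616552),
   (15956, 12475554062609761371393307271010051300100248106531050974687914518632)]

/-- The weight of pair number `k` in the encoding `w`. -/
def digit (w k : ℕ) : ℤ := (((w >>> (8 * k)) % 256 : ℕ) : ℤ) - 100

/-- The weight of the four-subset number `j`: the sum of the weights of its pairs. -/
def wt (w : ℕ) (j : ℕ) : ℤ := ((prs.getD j []).map (digit w)).sum

/-- The certificate condition for the mask `M` and the weights `w`. -/
def certOK (M w : ℕ) : Bool :=
  (List.range 70).all fun j =>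
    let d := dpos.getD j 99
    if d < 14 then (if M.testBit d then decide (0 ≤ wt w j) else decide (wt w j = 0))
    else decide (0 < wt w j)

theorem certs_ok : certs.all (fun c => certOK c.1 c.2) = true := by decide +kernel

theorem bl_injective : Function.Injective bl := by decide +kernel

theorem bl_card : ∀ j, (bl j).card = 4 := by decide +kernel

theorem bl_surj : ∀ b : Finset (Fin 8), b.card = 4 → ∃ j, bl j = b := by decide +kernel

theorem pr_card : ∀ k, (pr k).card = 2 := by decide +kernel

theorem P_injective : Function.Injective P := by decide +kernel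

theorem agPlanes_eq : agPlanes = univ.image P := by decide +kernel

theorem prs_spec : ∀ j : Fin 70,
    ((prs.getD j []).Nodup ∧ ∀ k : Fin 28, (pr k ⊆ bl j ↔ (k : ℕ) ∈ prs.getD j [])) ∧
      ∀ k ∈ prs.getD j [], k < 28 := by decide +kernel

theorem dpos_spec : ∀ j : Fin 70, ∀ i : Fin 14, (bl j = P i ↔ dpos.getD j 99 = i) := by
  decide +kernel

theorem isDesign_agPlanes : IsDesign 2 4 3 agPlanes := by
  unfold IsDesign
  decide +kernel

theorem ind_mem {V : Type} [DecidableEq V] {B : Finset (Finset V)} {b : Finset V} (h : b ∈ B) :
    (if b ∈ B then 1 else 0 : ℕ) = 1 := if_pos h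

theorem isMultiDesign_ind {V : Type} [Fintype V] [DecidableEq V] {t k lam : ℕ}
    {B : Finset (Finset V)} (h : IsDesign t k lam B) : IsMultiDesign t k lam (ind B) := by
  refine ⟨fun b hb => h.1 b ?_, fun T hT => ?_⟩
  · by_contra hn
    exact hb (if_neg hn)
  · rw [← h.2 T hT, Finset.card_filter, ← Finset.sum_subset (Finset.subset_univ B)]
    · apply Finset.sum_congr rfl
      intro b hb
      simp [ind, hb]
    · intro b _ hb
      simp [ind, hb]

theorem ind_injective {V : Type} [Fintype V] [DecidableEq V] {B B' : Finset (Finset V)}
    (h : ind B = ind B') : B = B' := by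
  ext b
  have := congrFun h b
  simp only [ind] at this
  by_cases h1 : b ∈ B <;> by_cases h2 : b ∈ B' <;> simp_all

/-- Defining in the repeated-block setting implies defining in the simple setting. -/
theorem IsMultiDefining.isDefining {V : Type} [Fintype V] [DecidableEq V] {t k lam : ℕ}
    {B S : Finset (Finset V)} (h : IsMultiDefining t k lam B S) : IsDefining t k lam B S := by
  refine ⟨h.1, fun B' hB' hS => ?_⟩
  apply ind_injective
  exact h.2 (ind B') (isMultiDesign_ind hB') (fun b hb => by simp [ind, hS hb])

theorem sys (m : Finset (Fin 8) → ℕ) (hm : IsMultiDesign 2 4 3 m) (k : Fin 28) :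
    ∑ j : Fin 70, (if pr k ⊆ bl j then m (bl j) else 0) = 3 := by
  have h0 := hm.2 (pr k) (pr_card k)
  have h1 : ∑ b ∈ univ.image bl, (if pr k ⊆ b then m b else 0) =
      ∑ b : Finset (Fin 8), (if pr k ⊆ b then m b else 0) := by
    apply Finset.sum_subset (Finset.subset_univ _)
    intro b _ hb
    have : m b = 0 := by
      by_contra h
      obtain ⟨j, hj⟩ := bl_surj b (hm.1 b h)
      exact hb (Finset.mem_image.2 ⟨j, mem_univ _, hj⟩)
    simp [this]
  rw [h0, Finset.sum_image (fun a _ b _ h => bl_injective h)] at h1
  exact h1

theorem wt_eq (w : ℕ) (j : Fin 70) :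
    wt w j = ∑ k : Fin 28, if pr k ⊆ bl j then digit w k else 0 := by
  obtain ⟨⟨hnd, hmem⟩, hlt⟩ := prs_spec j
  have h1 : ∑ k : Fin 28, (if pr k ⊆ bl j then digit w k else 0) =
      ∑ k : Fin 28, (fun n : ℕ => if n ∈ prs.getD j [] then digit w n else 0) k := by
    apply Finset.sum_congr rfl
    intro k _
    simp only [hmem k]
  rw [h1, Fin.sum_univ_eq_sum_range (fun n : ℕ => if n ∈ prs.getD j [] then digit w n else 0) 28,
    ← Finset.sum_filter]
  have h2 : (Finset.range 28).filter (fun n => n ∈ prs.getD j []) = (prs.getD j []).toFinset := by
    ext n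
    simp only [Finset.mem_filter, Finset.mem_range, List.mem_toFinset]
    exact ⟨fun h => h.2, fun h => ⟨hlt n h, h⟩⟩
  rw [h2, List.sum_toFinset _ hnd]
  rfl

theorem wsum (m : Finset (Fin 8) → ℕ) (hm : IsMultiDesign 2 4 3 m) (w : ℕ) :
    ∑ j : Fin 70, wt w j * (m (bl j) : ℤ) = 3 * ∑ k : Fin 28, digit w k := by
  simp_rw [wt_eq, Finset.sum_mul]
  rw [Finset.sum_comm, Finset.mul_sum]
  apply Finset.sum_congr rfl
  intro k _
  have h := sys m hm k
  have h' : ((∑ j : Fin 70, (if pr k ⊆ bl j then m (bl j) else 0) : ℕ) : ℤ) = 3 := by
    rw [h]; rfl
  rw [← h', Nat.cast_sum, Finset.sum_mul]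
  apply Finset.sum_congr rfl
  intro j _
  split_ifs <;> push_cast <;> ring

theorem P_mem (i : Fin 14) : P i ∈ agPlanes := by
  rw [agPlanes_eq]
  exact Finset.mem_image_of_mem _ (mem_univ _)

theorem supp_of_cert {M w : ℕ} (hc : certOK M w = true) (m : Finset (Fin 8) → ℕ)
    (hm : IsMultiDesign 2 4 3 m) (hM : ∀ i : Fin 14, M.testBit i = true → 1 ≤ m (P i))
    (j : Fin 70) (hj : bl j ∉ agPlanes) : m (bl j) = 0 := by
  have e1 := wsum m hm w
  have e2 := wsum (ind agPlanes) (isMultiDesign_ind isDesign_agPlanes) w
  have e3 : ∑ j : Fin 70, wt w j * ((m (bl j) : ℤ) - (ind agPlanes (bl j) : ℤ)) = 0 := by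
    simp_rw [mul_sub, Finset.sum_sub_distrib]
    rw [e1, e2, sub_self]
  have hcond : ∀ j : Fin 70, (dpos.getD j 99 < 14 → (M.testBit (dpos.getD j 99) = true → 0 ≤ wt w j)
      ∧ (M.testBit (dpos.getD j 99) = false → wt w j = 0)) ∧
      (¬ dpos.getD j 99 < 14 → 0 < wt w j) := by
    intro j
    have := List.all_eq_true.1 hc j (List.mem_range.2 j.2)
    simp only at this
    refine ⟨fun h => ?_, fun h => ?_⟩
    · rw [if_pos h] at this
      refine ⟨fun h' => ?_, fun h' => ?_⟩
      · rw [if_pos h'] at this
        exact of_decide_eq_true this
      · rw [if_neg (by rw [h']; decide)] at this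
        exact of_decide_eq_true this
    · rw [if_neg h] at this
      exact of_decide_eq_true this
  have hnn : ∀ j ∈ (univ : Finset (Fin 70)),
      0 ≤ wt w j * ((m (bl j) : ℤ) - (ind agPlanes (bl j) : ℤ)) := by
    intro j _
    by_cases hd : dpos.getD j 99 < 14
    · have hbl : bl j = P ⟨dpos.getD j 99, hd⟩ := (dpos_spec j ⟨_, hd⟩).2 rfl
      cases hb : M.testBit (dpos.getD j 99) with
      | true =>
        have h1 := ((hcond j).1 hd).1 hb
        have h2 := hM ⟨_, hd⟩ hb
        rw [← hbl] at h2
        have h3 : ind agPlanes (bl j) = 1 := by
          rw [hbl]; exact if_pos (P_mem _)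
        rw [h3]
        apply mul_nonneg h1
        have : (1 : ℤ) ≤ m (bl j) := by exact_mod_cast h2
        simpa using this
      | false =>
        rw [((hcond j).1 hd).2 hb]
        simp
    · have h1 := (hcond j).2 hd
      have h3 : ind agPlanes (bl j) = 0 := by
        apply if_neg
        rw [agPlanes_eq]
        intro h
        obtain ⟨i, -, hi⟩ := Finset.mem_image.1 h
        have := (dpos_spec j i).1 hi.symm
        apply hd
        rw [this]
        exact i.2
      rw [h3]
      apply mul_nonneg h1.le
      simp
  have hz := (Finset.sum_eq_zero_iff_of_nonneg hnn).1 e3 j (mem_univ _)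
  have hd : ¬ dpos.getD j 99 < 14 := by
    intro hd
    apply hj
    have hbl : bl j = P ⟨dpos.getD j 99, hd⟩ := (dpos_spec j ⟨_, hd⟩).2 rfl
    rw [hbl]
    exact P_mem _
  have h1 := (hcond j).2 hd
  have h3 : ind agPlanes (bl j) = 0 := if_neg hj
  rw [h3] at hz
  rcases mul_eq_zero.1 hz with h | h
  · omega
  · have : (m (bl j) : ℤ) = 0 := by simpa using h
    exact_mod_cast this

/-- For each plane, pair weights (encoded as in `digit`) summing to `24` on that plane and to
`0` on the thirteen others. -/
def fulls : List ℕ :=
  [10572528104764956406610706684642782140498421529565586410189370189928,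
   10572115115386343681560494768524735268722844309365498591719280829288,
   10993364282060188928866760817067565925051150295175882495548658508648,
   10467214199979237533330073269225925351281397053096162480126628685923,
   10468859704438478652068207575934317043820288989719607547661996222563,
   10466804462040862021046021917842588561597624183700849797160430494563,
   10466810864684630252074246970345385597443964211056417827528064394083,
   10466804462040860151791025693882431391257881275030464113336654259043,
   10466810864684630618882635201888864250019670056844465030590655390563,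
   10467214199979237166487564897536639059337343224359119867447613809763,
   10468859704438480521357323940040281854164690770865311035102484194403,
   10572115115386343305983230344616901025103917836566340436008523490148,
   10993364282060190806890633933023300600484019146373768303888832881508,
   10995429228955553175452992346901071993124829350621560430237743080548]

theorem fulls_spec : ∀ i : Fin 14, ∀ j : Fin 70, dpos.getD j 99 < 14 →
    wt (fulls.getD i 0) j = if dpos.getD j 99 = i then 24 else 0 := by decide +kernel

theorem eq_of_supp (m : Finset (Fin 8) → ℕ) (hm : IsMultiDesign 2 4 3 m)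
    (hz : ∀ j : Fin 70, bl j ∉ agPlanes → m (bl j) = 0) : m = ind agPlanes := by
  have hdes := isMultiDesign_ind isDesign_agPlanes
  funext b
  by_cases hb : b ∈ agPlanes
  · rw [agPlanes_eq] at hb
    obtain ⟨i, -, rfl⟩ := Finset.mem_image.1 hb
    obtain ⟨j, hj⟩ := bl_surj (P i) (isDesign_agPlanes.1 _ (P_mem i))
    have hdj : dpos.getD j 99 = i := (dpos_spec j i).1 hj
    have e1 := wsum m hm (fulls.getD i 0)
    have e2 := wsum (ind agPlanes) hdes (fulls.getD i 0)
    have e3 : ∑ j : Fin 70, wt (fulls.getD i 0) j *
        ((m (bl j) : ℤ) - (ind agPlanes (bl j) : ℤ)) = 0 := by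
      simp_rw [mul_sub, Finset.sum_sub_distrib]
      rw [e1, e2, sub_self]
    rw [Finset.sum_eq_single j] at e3
    · rw [fulls_spec i j (by rw [hdj]; exact i.2), if_pos hdj, hj] at e3
      have : (m (P i) : ℤ) = (ind agPlanes (P i) : ℤ) := by linarith
      exact_mod_cast this
    · intro j' _ hne
      by_cases h : bl j' ∈ agPlanes
      · rw [agPlanes_eq] at h
        obtain ⟨i', -, hi'⟩ := Finset.mem_image.1 h
        have hd' : dpos.getD j' 99 = i' := (dpos_spec j' i').1 hi'.symm
        rw [fulls_spec i j' (by rw [hd']; exact i'.2), if_neg, zero_mul]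
        rw [hd']
        intro he
        have he' : i' = i := Fin.ext he
        apply hne
        apply bl_injective
        rw [← hi', hj, he']
      · rw [hz j' h]
        have : ind agPlanes (bl j') = 0 := if_neg h
        rw [this]
        simp
    · intro h
      exact absurd (mem_univ _) h
  · have h0 : ind agPlanes b = 0 := if_neg hb
    rw [h0]
    by_contra hne
    obtain ⟨j, rfl⟩ := bl_surj b (hm.1 b hne)
    exact hne (hz j hb)

/-- The set of planes coded by a mask. -/
def planesOf (M : ℕ) : Finset (Finset (Fin 8)) :=
  (univ.filter (fun i : Fin 14 => M.testBit i = true)).image P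

theorem mem_planesOf {M : ℕ} (i : Fin 14) : P i ∈ planesOf M ↔ M.testBit i = true := by
  unfold planesOf
  rw [Finset.mem_image]
  constructor
  · rintro ⟨i', hi', he⟩
    have := P_injective he
    subst this
    exact (Finset.mem_filter.1 hi').2
  · intro h
    exact ⟨i, Finset.mem_filter.2 ⟨mem_univ _, h⟩, rfl⟩

theorem planesOf_subset (M : ℕ) : planesOf M ⊆ agPlanes := by
  intro b hb
  obtain ⟨i, -, rfl⟩ := Finset.mem_image.1 hb
  exact P_mem i

theorem multiDefining_of_cert {c : ℕ × ℕ} (hc : c ∈ certs) :
    IsMultiDefining 2 4 3 agPlanes (planesOf c.1) := by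
  refine ⟨planesOf_subset _, fun m hm hS => ?_⟩
  have h1 : certOK c.1 c.2 = true := List.all_eq_true.1 certs_ok c hc
  apply eq_of_supp m hm
  intro j hj
  exact supp_of_cert h1 m hm (fun i hi => hS _ ((mem_planesOf i).2 hi)) j hj

/-- The designs attached to the trades. -/
def altOf (l : List ℕ) : Finset (Finset (Fin 8)) :=
  (univ.filter (fun j : Fin 70 => (j : ℕ) ∈ l)).image bl

theorem trades_design : ∀ t ∈ trades, IsDesign 2 4 3 (altOf t.2) := by
  unfold IsDesign
  decide +kernel

theorem trades_ne : ∀ t ∈ trades, altOf t.2 ≠ agPlanes := by decide +kernel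

theorem trades_sub : ∀ t ∈ trades, ∀ i : Fin 14, t.1.testBit i = false → P i ∈ altOf t.2 := by
  decide +kernel

theorem not_defining_of_trade {S : Finset (Finset (Fin 8))} (hS : S ⊆ agPlanes) {t : ℕ × List ℕ}
    (ht : t ∈ trades) (hmiss : ∀ i : Fin 14, t.1.testBit i = true → P i ∉ S) :
    ¬ IsDefining 2 4 3 agPlanes S := by
  rintro ⟨-, h⟩
  apply trades_ne t ht
  apply h _ (trades_design t ht)
  intro b hb
  have hb' := hS hb
  rw [agPlanes_eq] at hb'
  obtain ⟨i, -, rfl⟩ := Finset.mem_image.1 hb'
  apply trades_sub t ht
  cases h : t.1.testBit i with
  | false => rfl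
  | true => exact absurd hb (hmiss i h)

/-- The check, for all masks `128 * a + b` with `b < 128`, that the mask misses a trade or
contains one of the listed defining sets. -/
def covA (a : ℕ) : Bool :=
  let L := (trades.map Prod.fst).filter (fun t => 128 * a &&& t == 0)
  let C := (certs.map Prod.fst).filter (fun c => (128 * a + 127) &&& c == c)
  (List.range 128).all fun b =>
    L.any (fun t => (128 * a + b) &&& t == 0) || C.any (fun c => (128 * a + b) &&& c == c)

theorem cover_aux : (List.range 128).all covA = true := by decide +kernel

theorem cover {n : ℕ} (hn : n < 2 ^ 14) : (∃ t ∈ trades, n &&& t.1 = 0) ∨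
    ∃ c ∈ certs, n &&& c.1 = c.1 := by
  have h := List.all_eq_true.1 cover_aux (n / 128) (List.mem_range.2 (by omega))
  have h' := List.all_eq_true.1 h (n % 128) (List.mem_range.2 (by omega))
  rw [Nat.div_add_mod, Bool.or_eq_true] at h'
  rcases h' with h' | h'
  · left
    obtain ⟨t, ht, h0⟩ := List.any_eq_true.1 h'
    obtain ⟨t', ht', rfl⟩ := List.mem_map.1 (List.mem_filter.1 ht).1
    exact ⟨t', ht', by simpa using h0⟩
  · right
    obtain ⟨c, hc, h0⟩ := List.any_eq_true.1 h'
    obtain ⟨c', hc', rfl⟩ := List.mem_map.1 (List.mem_filter.1 hc).1
    exact ⟨c', hc', by simpa using h0⟩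

theorem certs_min_aux : ((certs.map Prod.fst).all fun c => (List.range 14).all fun i =>
    !c.testBit i || (trades.map Prod.fst).any (fun t => t &&& c == 2 ^ i)) = true := by
  decide +kernel

/-- Removing any plane from a listed defining set leaves a set that misses a trade. -/
theorem certs_min : ∀ c ∈ certs, ∀ i : Fin 14, c.1.testBit i = true →
    ∃ t ∈ trades, ∀ i' : Fin 14, t.1.testBit i' = true → c.1.testBit i' = true → i' = i := by
  intro c hc i hi
  have h := List.all_eq_true.1 (List.all_eq_true.1 certs_min_aux c.1
    (List.mem_map_of_mem hc)) i (List.mem_range.2 i.2)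
  rw [hi, Bool.not_true, Bool.false_or] at h
  obtain ⟨t, ht, h0⟩ := List.any_eq_true.1 h
  obtain ⟨t', ht', rfl⟩ := List.mem_map.1 ht
  have h0' : t'.1 &&& c.1 = 2 ^ (i : ℕ) := by simpa using h0
  refine ⟨t', ht', fun i' h1 h2 => ?_⟩
  have h3 : (t'.1 &&& c.1).testBit i' = true := by rw [Nat.testBit_and, h1, h2]; rfl
  rw [h0', Nat.testBit_two_pow] at h3
  exact (Fin.ext (of_decide_eq_true h3)).symm

theorem certs_card : ∀ c ∈ certs, (univ.filter (fun i : Fin 14 => c.1.testBit i = true)).card = 6 ∨
    (univ.filter (fun i : Fin 14 => c.1.testBit i = true)).card = 8 := by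
  decide +kernel

theorem certs_six : ∃ c ∈ certs,
    (univ.filter (fun i : Fin 14 => c.1.testBit i = true)).card = 6 := by decide +kernel

theorem certs_eight : ∃ c ∈ certs,
    (univ.filter (fun i : Fin 14 => c.1.testBit i = true)).card = 8 := by decide +kernel

theorem planesOf_card (M : ℕ) :
    (planesOf M).card = (univ.filter (fun i : Fin 14 => M.testBit i = true)).card :=
  Finset.card_image_of_injective _ P_injective

/-- Every set of planes either fails to be defining or contains a listed defining set. -/
theorem dichotomy {S : Finset (Finset (Fin 8))} (hS : S ⊆ agPlanes) :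
    ¬ IsDefining 2 4 3 agPlanes S ∨ ∃ c ∈ certs, planesOf c.1 ⊆ S := by
  classical
  let f : Fin 14 → Bool := fun i => decide (P i ∈ S)
  have hbit : ∀ i : Fin 14, (Nat.ofBits f).testBit i = decide (P i ∈ S) := by
    intro i
    exact Nat.testBit_ofBits_lt f i i.2
  rcases cover (Nat.ofBits_lt_two_pow f) with ⟨t, ht, h0'⟩ | ⟨c, hc, h0'⟩
  · left
    apply not_defining_of_trade hS ht
    intro i hi hmem
    have : (Nat.ofBits f &&& t.1).testBit i = true := by
      rw [Nat.testBit_and, hbit i, hi]
      simpa using hmem
    rw [h0'] at this
    simp at this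
  · right
    refine ⟨c, hc, ?_⟩
    intro b hb
    obtain ⟨i, hi, rfl⟩ := Finset.mem_image.1 hb
    have hi' : c.1.testBit i = true := (Finset.mem_filter.1 hi).2
    rw [← h0', Nat.testBit_and, hbit i, Bool.and_eq_true] at hi'
    exact of_decide_eq_true hi'.1

/-- Proper subsets of a listed defining set are not defining. -/
theorem not_defining_of_ssubset {c : ℕ × ℕ} (hc : c ∈ certs) {S' : Finset (Finset (Fin 8))}
    (hS' : S' ⊂ planesOf c.1) : ¬ IsDefining 2 4 3 agPlanes S' := by
  obtain ⟨hsub, hnot⟩ := Finset.ssubset_iff_subset_ne.1 hS'
  obtain ⟨b, hb, hb'⟩ := Finset.exists_of_ssubset hS'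
  obtain ⟨i, hi, rfl⟩ := Finset.mem_image.1 hb
  have hi' : c.1.testBit i = true := (Finset.mem_filter.1 hi).2
  obtain ⟨t, ht, hti⟩ := certs_min c hc i hi'
  apply not_defining_of_trade (hsub.trans (planesOf_subset _)) ht
  intro i' hti' hmem
  have h1 : c.1.testBit i' = true := (mem_planesOf i').1 (hsub hmem)
  have h2 := hti i' hti' h1
  subst h2
  exact hb' hmem

theorem minimalDefining_of_cert {c : ℕ × ℕ} (hc : c ∈ certs) :
    IsMinimalDefining 2 4 3 agPlanes (planesOf c.1) :=
  ⟨(multiDefining_of_cert hc).isDefining, fun _ h => not_defining_of_ssubset hc h⟩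

theorem minimalMultiDefining_of_cert {c : ℕ × ℕ} (hc : c ∈ certs) :
    IsMinimalMultiDefining 2 4 3 agPlanes (planesOf c.1) :=
  ⟨multiDefining_of_cert hc, fun _ h h' => not_defining_of_ssubset hc h h'.isDefining⟩

theorem spec_eq : Spec 2 4 3 agPlanes = {6, 8} := by
  ext n
  simp only [Spec, Set.mem_ofPred_eq, Set.mem_insert_iff, Set.mem_singleton_iff]
  constructor
  · rintro ⟨S, ⟨hdef, hmin⟩, rfl⟩
    rcases dichotomy hdef.1 with h | ⟨c, hc, hcS⟩
    · exact absurd hdef h
    · have heq : planesOf c.1 = S := by
        by_contra hne
        exact hmin _ (Finset.ssubset_iff_subset_ne.2 ⟨hcS, hne⟩)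
          (multiDefining_of_cert hc).isDefining
      rw [← heq, planesOf_card]
      exact certs_card c hc
  · rintro (rfl | rfl)
    · obtain ⟨c, hc, h6⟩ := certs_six
      exact ⟨_, minimalDefining_of_cert hc, by rw [planesOf_card, h6]⟩
    · obtain ⟨c, hc, h8⟩ := certs_eight
      exact ⟨_, minimalDefining_of_cert hc, by rw [planesOf_card, h8]⟩

theorem multiSpec_eq : MultiSpec 2 4 3 agPlanes = {6, 8} := by
  ext n
  simp only [MultiSpec, Set.mem_ofPred_eq, Set.mem_insert_iff, Set.mem_singleton_iff]
  constructor
  · rintro ⟨S, ⟨hdef, hmin⟩, rfl⟩
    rcases dichotomy hdef.1 with h | ⟨c, hc, hcS⟩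
    · exact absurd hdef.isDefining h
    · have heq : planesOf c.1 = S := by
        by_contra hne
        exact hmin _ (Finset.ssubset_iff_subset_ne.2 ⟨hcS, hne⟩) (multiDefining_of_cert hc)
      rw [← heq, planesOf_card]
      exact certs_card c hc
  · rintro (rfl | rfl)
    · obtain ⟨c, hc, h6⟩ := certs_six
      exact ⟨_, minimalMultiDefining_of_cert hc, by rw [planesOf_card, h6]⟩
    · obtain ⟨c, hc, h8⟩ := certs_eight
      exact ⟨_, minimalMultiDefining_of_cert hc, by rw [planesOf_card, h8]⟩

/-- The planes of `AG(3,2)` form a `2`-`(8,4,3)` design whose minimal defining sets have sizes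
exactly `6` and `8`, so its spectrum has a hole (at `7`).  The spectrum is the same when the
competing designs may have repeated blocks. -/
theorem result :
    IsDesign 2 4 3 agPlanes ∧ Spec 2 4 3 agPlanes = {6, 8} ∧ HasHole (Spec 2 4 3 agPlanes) ∧
      MultiSpec 2 4 3 agPlanes = {6, 8} := by
  refine ⟨isDesign_agPlanes, spec_eq, ?_, multiSpec_eq⟩
  rw [spec_eq]
  exact ⟨6, by simp, 8, by simp, 7, by norm_num, by norm_num, by simp⟩

end Pool.Agent.Lib.MP_13ec72_co.SpectrumHole
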